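import Mathlib
import Pool.Agent.Lib_helper33.BF.Main

/-!
# MP_490369_al: Berman's assertion on the automorphisms of `Z(ℤG)` is false

There is a group `G` of order 4608 and a ring automorphism `σ` of the centre of `ℤG`, an involution
which preserves the augmentation, such that for a conjugacy class `c` with 16 elements and a central
element `z` of order 2 of `G`, `σ` maps the class sum `ĉ` to `z ĉ + 2 - 2 z`. This is not an integer
multiple of a class sum.

The group: the graded square of `GL(2,3)` (elements of determinant `-1` are odd, two odd elements of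
different factors commute up to the sign `z`), with `-1` of both factors identified with `z`, extended
by two involutions, one of which exchanges the factors.
-/

set_option autoImplicit false

namespace Pool.Agent.Results.MP_490369_al.BermanFalse

open Classical in
/-- The class sum of the conjugacy class `c`: the sum of its elements in the integral group ring. -/
noncomputable def classSum {G : Type} [Group G] [Fintype G] (c : ConjClasses G) :
    MonoidAlgebra ℤ G :=
  ∑ g ∈ Finset.univ.filter (fun g : G => ConjClasses.mk g = c), MonoidAlgebra.single g (1 : ℤ)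

/-- The augmentation of `x ∈ ℤG`: the sum of its coefficients. -/
def aug {G : Type} [Group G] [Fintype G] (x : MonoidAlgebra ℤ G) : ℤ := ∑ g, x.coeff g

/-- The ring automorphisms of the centre of the integral group ring. -/
abbrev AutZ (G : Type) [Group G] : Type :=
  ↥(Subring.center (MonoidAlgebra ℤ G)) ≃+* ↥(Subring.center (MonoidAlgebra ℤ G))

/-- The automorphism `σ` of the centre of `ℤG` maps the (central) element `x` of `ℤG` to `y`. -/
def Maps {G : Type} [Group G] (σ : AutZ G) (x y : MonoidAlgebra ℤ G) : Prop :=
  ∃ hx : x ∈ Subring.center (MonoidAlgebra ℤ G),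
    ((σ ⟨x, hx⟩ : ↥(Subring.center (MonoidAlgebra ℤ G))) : MonoidAlgebra ℤ G) = y

theorem result :
    ∃ (G : Type) (_ : Group G) (_ : Fintype G) (σ : AutZ G) (z : G) (c : ConjClasses G),
      Fintype.card G = 4608 ∧ (∀ x y, Maps σ x y → Maps σ y x ∧ aug y = aug x) ∧
      z ∈ Subgroup.center G ∧ z ≠ 1 ∧ z * z = 1 ∧ Nat.card c.carrier = 16 ∧
      Maps σ (classSum c) (MonoidAlgebra.single z 1 * classSum c + MonoidAlgebra.single 1 2 -
        MonoidAlgebra.single z 2) ∧
      ∀ (d : ConjClasses G) (n : ℤ), ¬ Maps σ (classSum c) (n • classSum d) := by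
  have hcs : ∀ d : ConjClasses Pool.Agent.Berman.G, classSum d = Pool.Agent.Berman.classSum d :=
    fun d => Pool.Agent.Berman.classSum_eq d _
  have hs : ∀ x y, Maps Pool.Agent.Berman.sigma x y → y = Pool.Agent.Berman.phi x := by
    rintro x y ⟨hx, rfl⟩
    rfl
  refine ⟨Pool.Agent.Berman.G, inferInstance, inferInstance, Pool.Agent.Berman.sigma,
    Pool.Agent.Berman.bf_z, Pool.Agent.Berman.bf_c,
    Pool.Agent.Berman.bf_card_G, ?_, Pool.Agent.Berman.bf_z_center,
    Pool.Agent.Berman.bf_z_ne, Pool.Agent.Berman.bf_z_mul, Pool.Agent.Berman.bf_card_class,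
    ?_, ?_⟩
  · rintro x y ⟨hx, rfl⟩
    exact ⟨⟨Pool.Agent.Berman.phi_mem x hx, Pool.Agent.Berman.phi_phi x⟩,
      Pool.Agent.Berman.bf_aug x⟩
  · rw [hcs]
    exact ⟨Pool.Agent.Berman.classSum_mem _, Pool.Agent.Berman.bf_formula⟩
  · intro d n h
    rw [hcs, hcs] at h
    exact Pool.Agent.Berman.bf_not_mul d n (hs _ _ h).symm

end Pool.Agent.Results.MP_490369_al.BermanFalse
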