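import Mathlib
import Pool.Agent.Lib_helper61.BermanStep

/-!
# Berman's problem on the centre of an integral group ring

Every ring automorphism of the centre of `ℤG` (`G` any finite group) permutes, up to sign, the
class sums of the conjugacy classes contained in the terms of the upper central series of `G`.
Hence Berman's conjecture holds for all finite nilpotent groups.
-/

set_option autoImplicit false
open Classical

namespace Pool.Agent.Results.MP_490369_al.Hypercenter

open Helper61.Berman

theorem exists_perm (G : Type) [Group G] [Fintype G]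
    (σ : ↥(Subring.center (MonoidAlgebra ℤ G)) ≃+* ↥(Subring.center (MonoidAlgebra ℤ G))) :
    ∃ π : Equiv.Perm (ConjClasses G), ∃ ε : ConjClasses G → ℤ,
      (∀ c, ε c = 1 ∨ ε c = -1) ∧
      ∀ (n : ℕ) (c : ConjClasses G),
        (∀ g, ConjClasses.mk g = c → g ∈ Subgroup.upperCentralSeries G n) →
        (∀ g, ConjClasses.mk g = π c → g ∈ Subgroup.upperCentralSeries G n) ∧
        σ (cs c) = ε c • cs (π c) := by
  let φ : ZC G →+* ZC G := σ
  let ψ : ZC G →+* ZC G := σ.symm
  have hψφ : ∀ x, ψ (φ x) = x := fun x => σ.symm_apply_apply x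
  have hφψ : ∀ x, φ (ψ x) = x := fun x => σ.apply_symm_apply x
  have hgood := good_upper φ ψ hψφ hφψ
  -- the set of classes in the hypercentre
  let T : ConjClasses G → Prop := fun c =>
    ∃ n : ℕ, ∀ g, ConjClasses.mk g = c → g ∈ Subgroup.upperCentralSeries G n
  have hex : ∀ (n : ℕ) (c : ConjClasses G),
      (∀ g, ConjClasses.mk g = c → g ∈ Subgroup.upperCentralSeries G n) →
      ∃ c' : ConjClasses G,
        (∀ g, ConjClasses.mk g = c' → g ∈ Subgroup.upperCentralSeries G n) ∧
        ∃ ε : ℤ, (ε = 1 ∨ ε = -1) ∧ φ (cs c) = ε • cs c' := by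
    intro n c hc
    obtain ⟨g₀, rfl⟩ := ConjClasses.exists_rep c
    obtain ⟨g₁, h1, ε, hε, h2⟩ := monomial _ φ ψ hψφ hφψ (hgood n).1 (hgood n).2 g₀
      (fun g hg => hc g (ConjClasses.mk_eq_mk_iff_isConj.mpr hg.symm))
    refine ⟨ConjClasses.mk g₁, ?_, ε, hε, h2⟩
    intro g hg
    exact h1 g (ConjClasses.mk_eq_mk_iff_isConj.mp hg).symm
  -- class sums with signs determine the class
  have huniq : ∀ (a b : ConjClasses G) (s t : ℤ), (s = 1 ∨ s = -1) → (t = 1 ∨ t = -1) →
      s • cs a = t • cs b → a = b := by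
    intro a b s t hs ht h
    obtain ⟨g, rfl⟩ := ConjClasses.exists_rep a
    have h1 := congrArg (fun y => cf y g) h
    simp only [cf_smul, cf_cs, if_true] at h1
    by_contra hne
    rw [if_neg hne] at h1
    rcases hs with rfl | rfl <;> simp at h1
  have hex' : ∀ c : ConjClasses G, T c → ∃ c' : ConjClasses G, T c' ∧
      ∃ ε : ℤ, (ε = 1 ∨ ε = -1) ∧ φ (cs c) = ε • cs c' := by
    rintro c ⟨n, hn⟩
    obtain ⟨c', h1, h2⟩ := hex n c hn
    exact ⟨c', ⟨n, h1⟩, h2⟩
  choose! f hfT hf using hex'
  let F : {c // T c} → {c // T c} := fun c => ⟨f c.1, hfT c.1 c.2⟩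
  have hFinj : Function.Injective F := by
    intro a b hab
    have h1 : f a.1 = f b.1 := congrArg Subtype.val hab
    obtain ⟨s, hs, hsa⟩ := hf a.1 a.2
    obtain ⟨t, ht, htb⟩ := hf b.1 b.2
    have h2 : t • cs a.1 = s • cs b.1 := by
      rw [← hψφ (t • cs a.1), ← hψφ (s • cs b.1)]
      congr 1
      rw [map_zsmul, map_zsmul, hsa, htb, h1, smul_smul, smul_smul, mul_comm]
    exact Subtype.ext (huniq _ _ t s ht hs h2)
  have hFbij : Function.Bijective F := Finite.injective_iff_bijective.mp hFinj
  let e : {c // T c} ≃ {c // T c} := Equiv.ofBijective F hFbij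
  let π : Equiv.Perm (ConjClasses G) := e.extendSubtype
  have hπ : ∀ c (hc : T c), π c = f c := by
    intro c hc
    have : π c = e ⟨c, hc⟩ := Equiv.extendSubtype_apply_of_mem e c hc
    rw [this]; rfl
  let ε : ConjClasses G → ℤ := fun c => if h : T c then (hf c h).choose else 1
  have hε : ∀ c, ε c = 1 ∨ ε c = -1 := by
    intro c
    by_cases h : T c
    · simp only [ε, dif_pos h]; exact (hf c h).choose_spec.1
    · simp [ε, dif_neg h]
  have hε2 : ∀ c, T c → φ (cs c) = ε c • cs (f c) := by
    intro c h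
    simp only [ε, dif_pos h]; exact (hf c h).choose_spec.2
  refine ⟨π, ε, hε, ?_⟩
  intro n c hc
  have hTc : T c := ⟨n, hc⟩
  rw [hπ c hTc]
  refine ⟨?_, hε2 c hTc⟩
  obtain ⟨c', h1, ε', hε', h2⟩ := hex n c hc
  rw [hε2 c hTc] at h2
  rw [huniq _ _ _ _ (hε c) hε' h2]
  exact h1

/-- For every finite group `G` and every ring automorphism `σ` of the centre of `ℤG` there
are a permutation `π` of the conjugacy classes and signs `ε` such that for every class `c`
contained in a term `Zₙ(G)` of the upper central series, `π c` is contained in `Zₙ(G)` and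
`σ` sends the class sum of `c` to `ε c` times the class sum of `π c`.  (For nilpotent `G` some
`Zₙ(G)` is `G`, and this is Berman's statement for `G`.) -/
theorem result :
    ∀ (G : Type) [Group G] [Fintype G]
      (σ : ↥(Subring.center (MonoidAlgebra ℤ G)) ≃+* ↥(Subring.center (MonoidAlgebra ℤ G))),
      ∃ π : Equiv.Perm (ConjClasses G), ∃ ε : ConjClasses G → ℤ,
        (∀ c, ε c = 1 ∨ ε c = -1) ∧
        ∀ (n : ℕ) (c : ConjClasses G),
          (∀ g, ConjClasses.mk g = c → g ∈ Subgroup.upperCentralSeries G n) →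
          (∀ g, ConjClasses.mk g = π c → g ∈ Subgroup.upperCentralSeries G n) ∧
          ∀ (x : ↥(Subring.center (MonoidAlgebra ℤ G))),
            (x : MonoidAlgebra ℤ G) =
                ∑ g ∈ Finset.univ.filter (fun g : G => ConjClasses.mk g = c),
                  MonoidAlgebra.single g (1 : ℤ) →
            ((σ x : ↥(Subring.center (MonoidAlgebra ℤ G))) : MonoidAlgebra ℤ G) =
              ε c • ∑ g ∈ Finset.univ.filter (fun g : G => ConjClasses.mk g = π c),
                  MonoidAlgebra.single g (1 : ℤ) := by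
  intro G _ _ σ
  obtain ⟨π, ε, hε, h⟩ := exists_perm G σ
  refine ⟨π, ε, hε, ?_⟩
  intro n c hc
  obtain ⟨h1, h2⟩ := h n c hc
  refine ⟨h1, ?_⟩
  intro x hx
  have hx' : x = cs c := by
    apply Subtype.ext
    rw [hx, coe_cs]
  rw [hx', h2, ← coe_cs]
  rfl

end Pool.Agent.Results.MP_490369_al.Hypercenter
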